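import Pool.Agent.helper17.EXT.Spec

set_option autoImplicit false

open Finset

namespace Pool.Agent.EXT

open Pool.Agent.EXC

theorem THF_negLR (hRTF : RTF_stmt) {β : Fin 6 → ℤ} (h : LR β) : LR (-β) := by
  refine ⟨neg_root C6 h.1, ?_⟩
  rw [hRTF.2.2.2.1, h.2]

theorem THF_subLR (hRTF : RTF_stmt) {α β : Fin 6 → ℤ} (ha : LR α) (hb : LR β) (h : ip C6 α β = 1) : LR (α - β) := by
  refine ⟨(sub_root_iff ha.1 hb.1).2 h, ?_⟩
  rw [sub_eq_add_neg, hRTF.2.2.1, hRTF.2.2.2.1, ha.2, hb.2]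

theorem THF (hRTF : RTF_stmt) (hESF : ESF_stmt) (hGFX : GFX_stmt) (_hPCS : PCS_stmt) (hUNF : UNF_stmt) (hTFS : TFS_stmt)
    (_hWST : WST_stmt) (hSGR : SGR_stmt) : THF_stmt := by
  intro K _ τ hτ a b
  have hthL : LR th := hRTF.2.2.2.2.2.2.2.2.2.2.2.2.2.1
  have hth := hthL.1
  obtain ⟨hExE, hEx⟩ := hESF K τ hτ
  have hnb := (f_NBR 6 C6 1 th ![0, 2, 3, 4, 5] f_DE6.2).1
  obtain ⟨-, -, hEXF, -⟩ := f_EXF 6 C6 K hnb
  have hSG := (hSGR K τ hτ).2.2.2.2.2
  have hX : ∀ d : Lm C6 K, ExS τ d → ∀ k ∈ GS τ, ∀ (t : K) (v : Lm C6 K), k (xe C6 d t v) = xe C6 (k d) t (k v) := by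
    intro d hd k hk t v
    exact ((f_XAU 6 C6 K d (hEXF d (hEx d hd).1).1).2.2.1 k (hSG k hk).2.1).2 t v
  have hsm : ∀ (d : Lm C6 K) (c t : K) (v : Lm C6 K), xe C6 (c • d) t v = xe C6 d (c * t) v := by
    intro d c t v
    unfold xe
    rw [br_smul_left, fm_smul_left, smul_smul, smul_smul, mul_comm t c]
    congr 2
    ring
  have hU := hUNF K τ hτ
  constructor
  · intro hT
    obtain ⟨ha, hb, -⟩ := hTFS K τ hτ a b 1 hT
    obtain ⟨k, hk, β, hβL, hθβ, c, c', hτc, hτc', hc, hc', hka, hkb⟩ := hT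
    have hβ := hβL.1
    have hki : k⁻¹ ∈ GS τ := inv_mem hk
    have hrL := THF_subLR hRTF hthL hβL hθβ
    have hr := hrL.1
    have hr2 : ip C6 (th - β) β = -1 := by rw [ip_sub_left, hθβ, hβ]; norm_num
    obtain ⟨g, hg, hg1⟩ := (hSGR K τ hτ).2.1 (th - β) 1 hrL (map_one τ)
    set σ : K := (sg C6 (th - β) β : K) with hσ
    have hσ0 : σ ≠ 0 := sg_ne_zero C6 _ _
    have hστ : τ σ = σ := by rw [hσ, map_intCast]
    have hd1 : g (E C6 β) = (σ • E C6 th + (1 : K) • E C6 β : Lm C6 K) := by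
      rw [hg1, ((f_ACT 6 C6 K (th - β) 1 hr).2.1 β hβ hr2), sub_add_cancel, one_mul, one_smul, add_comm]
    set d1 : Lm C6 K := σ • E C6 th + (1 : K) • E C6 β with hd1'
    have hexd1 : ExS τ d1 := by
      rw [← hd1]
      exact (hEx _ (hExE β hβL)).2.2.2.1 g hg
    have hβθ : β ≠ th := by
      rintro rfl
      rw [hβ] at hθβ
      norm_num at hθβ
    have hcβ : cf d1 β = 1 := by
      rw [hd1', cf_add, cf_smul, cf_smul, cf_E C6 hth, cf_E C6 hβ, if_neg hβθ]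
      simp
    have hcθ : cf d1 th = σ := by
      rw [hd1', cf_add, cf_smul, cf_smul, cf_E C6 hth, cf_E C6 hβ, if_neg hβθ.symm]
      simp
    have hkk : ∀ v, k (k⁻¹ v) = v := fun v => by
      rw [← LinearEquiv.mul_apply, mul_inv_cancel, LinearEquiv.coe_one, id]
    have hd0 : ExS τ (k⁻¹ d1) := (hEx _ hexd1).2.2.2.1 _ hki
    refine ⟨k⁻¹ d1, hd0, ?_, ?_, ?_⟩
    · intro e he
      have h1 := congrArg k he
      rw [hkk, map_smul, hka] at h1
      have h2 := hcβ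
      rw [h1, cf_smul, cf_smul, cf_E C6 hth, if_neg hβθ] at h2
      simp at h2
    · intro e he
      have h1 := congrArg k he
      rw [hkk, map_smul, hkb] at h1
      have h2 := hcθ
      rw [h1, cf_smul, cf_smul, cf_E C6 hβ, if_neg hβθ.symm] at h2
      simp at h2
      exact hσ0 h2.symm
    · rintro f ⟨t, hτt, ht⟩
      have e1 : τ (c⁻¹ * (σ * t)) = c⁻¹ * (σ * t) := by
        rw [map_mul, map_mul, map_inv₀, hτc, hστ, hτt]
      have e2 : τ (c'⁻¹ * (1 * t)) = c'⁻¹ * (1 * t) := by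
        rw [map_mul, map_mul, map_inv₀, hτc', map_one, hτt]
      obtain ⟨f1, -, hf1⟩ := ((hGFX K τ hτ).2 a ha).1 _ e1
      obtain ⟨f2, -, hf2⟩ := ((hGFX K τ hτ).2 b hb).1 _ e2
      refine ⟨f1, f2, ⟨_, e1, hf1⟩, ⟨_, e2, hf2⟩, ?_⟩
      apply Equiv.ext
      intro v
      apply Subtype.ext
      apply k.injective
      rw [ht v, Equiv.Perm.mul_apply, hf1 (f2 v), hf2 v, hX _ hd0 k hk, hX a ha k hk, hX b hb k hk, hkk, hka, hkb, hsm, hsm,
        mul_inv_cancel_left₀ hc, mul_inv_cancel_left₀ hc', hd1', ((f_COL 6 C6 K th β hth hβ).1 hθβ).1]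
  · intro hT d hd hh
    obtain ⟨ha, hb, -⟩ := hTFS K τ hτ a b 0 hT
    obtain ⟨k, hk, β, hβL, hθβ, c, c', hτc, hτc', hc, hc', hka, hkb⟩ := hT
    have hβ := hβL.1
    have hki : k⁻¹ ∈ GS τ := inv_mem hk
    obtain ⟨f, f1, f2, hdf, ⟨s1, hτs1, hs1⟩, ⟨s2, hτs2, hs2⟩, rfl⟩ := hh
    by_cases hs10 : s1 = 0
    · right
      have e1 : f1 = 1 := by
        apply Equiv.ext
        intro v
        apply Subtype.ext
        rw [hs1 v, hs10]
        simp [xe]
      rw [e1, one_mul] at hdf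
      exact ⟨s2, hU d b s2 f2 hd hb hdf hs2⟩
    by_cases hs20 : s2 = 0
    · left
      have e1 : f2 = 1 := by
        apply Equiv.ext
        intro v
        apply Subtype.ext
        rw [hs2 v, hs20]
        simp [xe]
      rw [e1, mul_one] at hdf
      exact ⟨s1, hU d a s1 f1 hd ha hdf hs1⟩
    exfalso
    have hs : c * s1 ≠ 0 := mul_ne_zero hc hs10
    have hts : c' * s2 ≠ 0 := mul_ne_zero hc' hs20
    have hkk : ∀ v, k (k⁻¹ v) = v := fun v => by
      rw [← LinearEquiv.mul_apply, mul_inv_cancel, LinearEquiv.coe_one, id]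
    set s := c * s1
    set t := c' * s2
    have key : ∀ v, si τ v = v → xe C6 (k d) 1 v = xe C6 (E C6 th) s (xe C6 (E C6 β) t v) := by
      intro v hv
      have hw : si τ (k⁻¹ v) = k⁻¹ v := by rw [(hSG _ hki).2.2, hv]
      have h1 := hdf ⟨k⁻¹ v, hw⟩
      rw [Equiv.Perm.mul_apply, hs1, hs2] at h1
      have h2 := congrArg k h1
      rw [hX a ha k hk, hX b hb k hk, hX d hd k hk] at h2
      change xe C6 (k a) s1 (xe C6 (k b) s2 (k (k⁻¹ v))) = xe C6 (k d) 1 (k (k⁻¹ v)) at h2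
      rw [hkk, hka, hkb, hsm, hsm] at h2
      exact h2.symm
    have hβθ : ip C6 β th = 0 := by rw [ip_comm, hθβ]
    have hne : β ≠ th := by
      rintro rfl
      rw [hβ] at hθβ
      norm_num at hθβ
    have hnn : th ≠ -th := by
      intro h
      have h3 := congrArg (ip C6 th) h
      rw [ip_neg_right, hth] at h3
      norm_num at h3
    have hnn' : β ≠ -β := by
      intro h
      have h3 := congrArg (ip C6 β) h
      rw [ip_neg_right, hβ] at h3
      norm_num at h3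
    have hnn2 : β ≠ -th := by
      rintro rfl
      rw [ip_neg_right, hth] at hθβ
      norm_num at hθβ
    have m1 : si τ (E C6 (-th) : Lm C6 K) = E C6 (-th) := (hEx _ (hExE _ (THF_negLR hRTF hthL))).2.2.1
    have m2 : si τ (E C6 (-β) : Lm C6 K) = E C6 (-β) := (hEx _ (hExE _ (THF_negLR hRTF hβL))).2.2.1
    have k1 : xe C6 (k d) 1 (E C6 (-th)) = (E C6 (-th) - s • ht C6 th + s ^ 2 • E C6 th : Lm C6 K) := by
      rw [key _ m1, (f_ACT 6 C6 K β t hβ).1 (-th) (neg_root C6 hth) (by rw [ip_neg_right, hβθ]; norm_num),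
        (f_ACT 6 C6 K th s hth).2.2.1]
    have k2 : xe C6 (k d) 1 (E C6 (-β)) = (E C6 (-β) - t • ht C6 β + t ^ 2 • E C6 β : Lm C6 K) := by
      rw [key _ m2, (f_COL 6 C6 K th β hth hβ).2 (by rw [hθβ]) s t,
        (f_ACT 6 C6 K th s hth).1 (-β) (neg_root C6 hβ) (by rw [ip_neg_right, hθβ]; norm_num), (f_ACT 6 C6 K β t hβ).2.2.1]
    have q1 := THR_cf C6 (k d) hth hth (by rw [hth]; norm_num) (by rw [hth]; norm_num)
    rw [k1, cf_add, cf_sub, cf_smul, cf_smul, cf_ht, cf_E C6 hth, cf_E C6 (neg_root C6 hth), if_neg hnn, if_pos rfl] at q1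
    have q2 := THR_cf C6 (k d) hth hβ (by rw [hθβ]; norm_num) (by rw [hθβ]; norm_num)
    rw [k1, cf_add, cf_sub, cf_smul, cf_smul, cf_ht, cf_E C6 hth, cf_E C6 (neg_root C6 hth), if_neg hnn2, if_neg hne] at q2
    have q3 := THR_cf C6 (k d) hβ hβ (by rw [hβ]; norm_num) (by rw [hβ]; norm_num)
    rw [k2, cf_add, cf_sub, cf_smul, cf_smul, cf_ht, cf_E C6 hβ, cf_E C6 (neg_root C6 hβ), if_neg hnn', if_pos rfl] at q3
    have r1 : cf (k d) th ≠ 0 := by
      intro h0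
      rw [h0] at q1
      simp at q1
      exact hs q1
    have r3 : cf (k d) β ≠ 0 := by
      intro h0
      rw [h0] at q3
      simp at q3
      exact hts q3
    simp only [mul_zero, sub_zero, add_zero] at q2
    exact (mul_ne_zero r1 r3) q2.symm

end Pool.Agent.EXT
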