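import Pool.Agent.helper32.EXT.Spec7

set_option autoImplicit false

open Finset

namespace Pool.Agent.EXT

open Pool.Agent.EXC

theorem FT7 (hYCF : YCF_stmt) (hGRQ : GRQ_stmt) (hFXF : FXF_stmt) : FT7_stmt := by
  intro K _ _ τ hτ r k hk hH x hRA hx
  have hfin : Finite (LT τ) := inferInstance
  have hfin2 : Finite (Equiv.Perm (LT τ)) := inferInstance
  have hfin3 : Finite (GF τ) := inferInstance
  obtain ⟨t, a, b, m, hm, hT, hY⟩ := hYCF K τ hτ x hRA hx
  obtain ⟨g, Z, hZ, hN⟩ := hH a b m _ hm hT hY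
  refine hGRQ (GF τ) x t r k g Z hk hZ fun N hN' => hN N ?_
  have h1 : MulAut.conj (Z ^ N) = 1 := by rw [map_pow, hN']
  refine (hFXF K τ hτ).2 _ fun g => ?_
  have h3 := DFunLike.congr_fun h1 g
  rw [MulAut.conj_apply, MulAut.one_apply] at h3
  exact mul_inv_eq_iff_eq_mul.1 h3

end Pool.Agent.EXT
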