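import Pool.Agent.helper17.EXT.SpecJ

/-!
# Row ftj:JCU of project EXT (MP_561ff4_al): the centraliser of the unipotent group in characteristic 2, first part
-/

set_option autoImplicit false

open Finset

namespace Pool.Agent.EXT

open Pool.Agent.EXC

set_option maxRecDepth 100000 in
theorem JCU_fin : ∀ η ∈ RL, η 1 = 1 → pv η ≠ η → η ≠ th - eta → η ≠ th - pv eta → ∃ i : Fin 6, i ≠ 1 ∧ (η - sr i) ∈ RL ∧
    ip C6 (sr i) (η - sr i) = -1 ∧ (pn i = i ∨ ip C6 (sr (pn i)) (η - sr i) = 0) := by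
  decide +kernel

theorem JCU_sr : ∀ i : Fin 6, ip C6 (sr i) (sr i) = 2 ∧ (i ≠ 1 → (sr i : Fin 6 → ℤ) 1 = 0 ∧ (sr (pn i) : Fin 6 → ℤ) 1 = 0) ∧
    (pn i ≠ i → pv (sr i) ≠ sr i) ∧ ip C6 (sr (pn i)) (sr (pn i)) = 2 := by
  decide +kernel

theorem JCU_eta : pv th = th ∧ pv (th - eta) = th - pv eta ∧ ip C6 (th - eta) (th - eta) = 2 := by
  decide +kernel

theorem JCU (hLST : LST_stmt) (hRTF : RTF_stmt) (hSIG : SIG_stmt) (hSGR : SGR_stmt) (hESF : ESF_stmt) (hGFX : GFX_stmt)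
    (hACS : ACS_stmt) (hUNF : UNF_stmt) (hYSS : YSS_stmt) : JCU_stmt := by
  intro K _ hK2 g hg hcom
  obtain ⟨τ, hτdef⟩ : ∃ τ : K ≃+* K, τ = RingEquiv.refl K := ⟨_, rfl⟩
  rw [← hτdef] at hg hcom
  have hτ : ∀ x, τ (τ x) = x := fun x => by rw [hτdef]; rfl
  have hE : IsE C6 1 th ![0, 2, 3, 4, 5] := f_DE6.2
  have hnb := (f_NBR 6 C6 1 th ![0, 2, 3, 4, 5] hE).1
  obtain ⟨-, hExE, hEx, -⟩ := f_EXF 6 C6 K hnb
  obtain ⟨hthpos, -, hpos1, -⟩ := f_DMN 6 C6 1 th ![0, 2, 3, 4, 5] hE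
  obtain ⟨-, hpv2, hpvadd, hpvneg, hpvsr, hPosv, hsn, -, -, -, hsnL, hsg, -, hLth, hth1⟩ := hRTF
  obtain ⟨-, -, -, -, hsifm, hsiE, -, -⟩ := hSIG K τ hτ
  obtain ⟨hSex, hLex, -, -, -, hGS⟩ := hSGR K τ hτ
  obtain ⟨hESE, hESX⟩ := hESF K τ hτ
  obtain ⟨hGFg, hGFa⟩ := hGFX K τ hτ
  obtain ⟨-, hgAu, hgsi⟩ := hGS g hg
  have hth2 : ip C6 th th = 2 := hLth.1
  have hnth : ip C6 (-th) (-th) = 2 := neg_root C6 hth2
  have hLnth : LR (-th) := ⟨hnth, by rw [hpvneg, hLth.2]⟩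
  have hsiL : ∀ β, LR β → si τ (E C6 β : Lm C6 K) = E C6 β := by
    intro β hL
    rw [hsiE β hL.1, hsnL β hL.2, hL.2, Int.cast_one, one_smul]
  -- (1) long positive root vectors are fixed
  have h1 : ∀ β, LR β → Pos β → g (E C6 β) = (E C6 β : Lm C6 K) := by
    intro β hL hp
    have hES : ExS τ (E C6 β : Lm C6 K) := hESE β hL
    obtain ⟨u, huG, hu⟩ := hLex β 1 hL (map_one τ)
    have huU : u ∈ UG C6 K := Subgroup.subset_closure ⟨β, hL.1, hp, 1, hu⟩
    obtain ⟨fg, hfg, hfgv⟩ := hGFg g hg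
    obtain ⟨hF1, -, -, -, hFc⟩ := hGFa _ hES
    obtain ⟨f, hf, hfv⟩ := hF1 1 (map_one τ)
    have hconj := hFc fg hfg g hg hfgv 1 f hfv
    have hcommf : fg * f * fg⁻¹ = f := by
      rw [mul_inv_eq_iff_eq_mul]
      refine Equiv.ext fun v => Subtype.ext ?_
      rw [Equiv.Perm.mul_apply, Equiv.Perm.mul_apply, hfgv, hfv, hfv, hfgv]
      have := hcom u huG huU v v.2
      rw [hu, hu] at this
      exact this
    rw [hcommf] at hconj
    have hESg : ExS τ (g (E C6 β)) := (hESX _ hES).2.2.2.1 g hg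
    have := hUNF K τ hτ (g (E C6 β)) (E C6 β) 1 f hESg hES hconj hfv
    rw [this, one_smul]
  have hgth : g (E C6 th) = (E C6 th : Lm C6 K) := h1 th hLth hthpos
  refine ⟨h1, ?_, ?_, ?_⟩
  · -- (2)
    obtain ⟨u, hu, huU, β', hβ', c, -, -, hgu⟩ := hYSS K τ hτ g hg (-th) hLnth
    have huθ : u (E C6 th) = E C6 th := (f_FPU 6 C6 K 1 th ![0, 2, 3, 4, 5] hE).1 u huU
    have h2 : fm C6 (E C6 th) (g (E C6 (-th))) = 1 := by
      have h3 : fm C6 (E C6 th) (g (E C6 (-th))) = fm C6 (g (E C6 th)) (g (E C6 (-th))) := by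
        rw [hgth]
      rw [h3, hgAu.fm, fm_E_E C6 hth2 hnth, if_pos rfl]
    have h4 : fm C6 (E C6 th) (u (E C6 β')) = if β' = -th then (1 : K) else 0 := by
      have h5 : fm C6 (E C6 th) (u (E C6 β')) = fm C6 (u (E C6 th)) (u (E C6 β')) := by
        rw [huθ]
      rw [h5, (hGS u hu).2.1.fm, fm_E_E C6 hth2 hβ'.1]
    rw [hgu, fm_smul_right, h4] at h2
    by_cases hb : β' = -th
    · rw [if_pos hb, mul_one] at h2
      refine ⟨u, huU, ?_⟩
      rw [hgu, h2, one_smul, hb]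
    · rw [if_neg hb, mul_zero] at h2
      exact absurd h2.symm one_ne_zero
  · -- (3)
    intro η hη hη1 hne1 hne2
    have hne : -th ≠ -η := by
      intro h
      have : th = η := neg_injective h
      rw [this, hη] at hη1
      norm_num at hη1
    have hηpos : Pos η := hpos1 η hη (by rw [hη1])
    by_cases hL : pv η = η
    · have h2 : fm C6 (E C6 η) (g (E C6 (-th))) = fm C6 (g (E C6 η)) (g (E C6 (-th))) := by
        rw [h1 η ⟨hη, hL⟩ hηpos]
      rw [h2, hgAu.fm, fm_E_E C6 hη hnth, if_neg hne]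
    · have hcomm : ip C6 th η = η 1 := hth1 η
      have hη1' : η 1 = 1 := by
        rw [← hcomm, ip_comm C6 th η, hη1]
      obtain ⟨i, hi1, hεR, hiε, hor⟩ := JCU_fin η ((hLST η).1 hη) hη1' hL hne1 hne2
      obtain ⟨ε, hε⟩ : ∃ ε, ε = η - sr i := ⟨_, rfl⟩
      rw [← hε] at hεR hiε hor
      have hε2 : ip C6 ε ε = 2 := (hLST ε).2 hεR
      have hsum : sr i + ε = η := by rw [hε]; abel
      obtain ⟨hsi2, hsi1, hsip, hsi3⟩ := JCU_sr i
      have hpos : ∀ j : Fin 6, Pos (sr j : Fin 6 → ℤ) := by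
        intro j k
        simp only [sr, Pi.single_apply]
        split_ifs <;> norm_num
      have hip0 : ip C6 (sr i) (-th) = 0 := by
        rw [ip_comm, ip_neg_left, hth1, (hsi1 hi1).1, neg_zero]
      have hip1 : ip C6 (sr (pn i)) (-th) = 0 := by
        rw [ip_comm, ip_neg_left, hth1, (hsi1 hi1).2, neg_zero]
      obtain ⟨w, hwG, hwU, hw1, hw2⟩ : ∃ w ∈ GS τ, w ∈ UG C6 K ∧ w (E C6 (-th)) = (E C6 (-th) : Lm C6 K) ∧
          w (E C6 ε) = (E C6 ε + (1 * (sg C6 (sr i) ε : K)) • E C6 η : Lm C6 K) := by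
        obtain ⟨a1, a2, -⟩ := f_ACT 6 C6 K (sr i) 1 hsi2
        by_cases hpi : pn i = i
        · have hLi : LR (sr i) := ⟨hsi2, by rw [hpvsr, hpi]⟩
          obtain ⟨w, hwG, hw⟩ := hLex (sr i) 1 hLi (map_one τ)
          refine ⟨w, hwG, Subgroup.subset_closure ⟨sr i, hsi2, hpos i, 1, hw⟩, ?_, ?_⟩
          · rw [hw, a1 _ hnth (by rw [hip0])]
          · rw [hw, a2 _ hε2 hiε, hsum]
        · have hSi : SR (sr i) := ⟨hsi2, hsip hpi⟩
          obtain ⟨w, hwG, hw⟩ := hSex (sr i) 1 hSi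
          have hε0 : ip C6 (sr (pn i)) ε = 0 := hor.resolve_left hpi
          have hpv : pv (sr i) = sr (pn i) := hpvsr i
          obtain ⟨c, hc⟩ : ∃ c : K, c = (sn (sr i) : K) * τ 1 := ⟨_, rfl⟩
          have hw' : ∀ v, w v = xe C6 (E C6 (sr i)) 1 (xe C6 (E C6 (sr (pn i))) c v) := by
            intro v
            rw [hw, hpv, hc]
          obtain ⟨b1, b2, -⟩ := f_ACT 6 C6 K (sr (pn i)) c hsi3
          have hwU : w ∈ UG C6 K := by
            obtain ⟨x1, -, hx1⟩ := (hEx _ (hExE (sr i) hsi2)).2.2.2.2.1 1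
            obtain ⟨x2, -, hx2⟩ := (hEx _ (hExE (sr (pn i)) hsi3)).2.2.2.2.1 c
            have hX12 : w = x1 * x2 := by
              refine LinearEquiv.ext fun v => ?_
              have h3 : (x1 * x2) v = x1 (x2 v) := rfl
              rw [h3, hw', hx1, hx2]
            rw [hX12]
            exact Subgroup.mul_mem _ (Subgroup.subset_closure ⟨sr i, hsi2, hpos i, 1, hx1⟩)
              (Subgroup.subset_closure ⟨sr (pn i), hsi3, hpos (pn i), _, hx2⟩)
          refine ⟨w, hwG, hwU, ?_, ?_⟩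
          · rw [hw', b1 _ hnth (by rw [hip1]), a1 _ hnth (by rw [hip0])]
          · rw [hw', b1 _ hε2 (by rw [hε0]), a2 _ hε2 hiε, hsum]
      have hwb : w (g (E C6 (-th))) = g (E C6 (-th)) := by
        have := hcom w hwG hwU (E C6 (-th)) (hsiL _ hLnth)
        rw [hw1] at this
        exact this.symm
      have h5 : fm C6 (w (E C6 ε)) (w (g (E C6 (-th)))) = fm C6 (E C6 ε) (g (E C6 (-th))) := (hGS w hwG).2.1.fm _ _
      rw [hwb, hw2, fm_add_left, fm_smul_left] at h5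
      have h6 : (1 * (sg C6 (sr i) ε : K)) * fm C6 (E C6 η) (g (E C6 (-th))) = 0 := by
        have h7 := h5
        rwa [add_eq_left] at h7
      have h8 := (mul_eq_zero.1 h6).resolve_left
      refine h8 ?_
      rw [one_mul]
      exact sg_ne_zero C6 _ _
  · -- (4)
    obtain ⟨e1, e2, e3⟩ := JCU_eta
    have h7 := hsifm (E C6 (th - eta)) (g (E C6 (-th)))
    have h8 : si τ (g (E C6 (-th))) = g (E C6 (-th)) := by
      rw [hgsi, hsiL _ hLnth]
    have h9 : (sn (th - eta) : K) = 1 := by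
      rcases hsn (th - eta) with h | h <;> rw [h]
      · simp
      · have : (1 : K) + 1 = 0 := by rw [← hK2]; norm_num
        simp only [Int.cast_neg, Int.cast_one]
        exact neg_eq_of_add_eq_zero_left this
    rw [h8, hsiE _ e3, h9, one_smul, e2] at h7
    rw [h7, hτdef]
    rfl

end Pool.Agent.EXT
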